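import Pool.Agent.H752.GM.Stubs
import Pool.Agent.H620R2.GaugeR.R12

/-! Project GM, task M8: the language for `AM` is in `AM`. -/

namespace Pool.Agent.H752.GM

open Pool.Agent.NPC Pool.Agent.H620R2.Gauge Finset H568R2

namespace M8

theorem kr_le (x : List Bool) : kr x ≤ kk x + 1 := by
  unfold kr
  omega

theorem kw_le (x : List Bool) : kw x ≤ kk x + 1 := by
  unfold kw
  omega

theorem upoly_kk1 : UPoly (fun x : List Bool => kk x + 1) := R12.upoly_kk.add (UPoly.const 1)

theorem upoly_kr : UPoly (fun x : List Bool => kr x) :=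
  UPoly.of_le (Poly.div upoly_kk1.toPoly (NPC.Poly.const 2)) upoly_kk1 kr_le

theorem upoly_kw : UPoly (fun x : List Bool => kw x) :=
  UPoly.of_le (Poly.sub upoly_kk1.toPoly upoly_kr.toPoly) upoly_kk1 kw_le

theorem upoly_nm : UPoly (fun x : List Bool => nm x) :=
  ((UPoly.const 3).mul (UPoly.length Poly.id)).add (UPoly.const 10)

/-- the markers -/
def mks (x : List Bool) : List (List Bool) :=
  (List.range (nm x)).map (fun i => mkS x (min i (nm x)))

theorem mks_eq (x : List Bool) : mks x = (List.range (nm x)).map (mkS x) := by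
  unfold mks
  refine List.map_congr_left fun i hi => ?_
  rw [min_eq_left (List.mem_range.1 hi).le]

theorem poly_mks : Poly mks := by
  unfold mks
  refine NPC.Poly.map (F := fun x i => mkS x (min i (nm x))) upoly_nm.range ?_
  have hx : Poly (fun p : List Bool × ℕ => p.1) := Poly.fst Poly.id
  have h1 : UPoly (fun p : List Bool × ℕ => nm p.1) := upoly_nm.comp hx
  have h2 : UPoly (fun p : List Bool × ℕ => min p.2 (nm p.1)) :=
    UPoly.of_le (Poly.min (Poly.snd Poly.id) h1.toPoly) h1 (fun p => min_le_right _ _)
  have h3 : UPoly (fun p : List Bool × ℕ => kk p.1 + 2 + min p.2 (nm p.1)) :=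
    ((R12.upoly_kk.comp hx).add (UPoly.const 2)).add h2
  have h4 : Poly (fun p : List Bool × ℕ =>
      List.replicate (kk p.1 + 2 + min p.2 (nm p.1)) false) := by
    refine Poly.congr (NPC.Poly.map (F := fun _ _ => false) h3 (NPC.Poly.const false)) fun p => ?_
    exact List.map_replicate
  exact H622R2.poly_pairBits hx h4

/-- the parts of the input -/
def pr (s : List Bool) : List Bool := (unpair s).1
def py (s : List Bool) : List Bool := (unpair (unpair s).2).1
def px (s : List Bool) : List Bool := (unpair (unpair s).2).2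

/-- the questions -/
def Q (s : List Bool) : List (List Bool) :=
  pairBits (px s) ((pr s).take (kr (px s)) ++ py s) :: mks (px s)

/-- the output -/
def H (p : List Bool × List Bool) : List Bool :=
  if (py p.1).length = kw (px p.1) ∧ p.2.all (fun b => b) = true then [true] else []

/-- the algorithm -/
def V (A : Oracle) (y : List Bool) : List Bool := H (y, (Q y).map A)

theorem poly_pr : Poly pr := Poly.fst poly_unpair
theorem poly_py : Poly py := Poly.fst (Poly.comp poly_unpair (Poly.snd poly_unpair))
theorem poly_px : Poly px := Poly.snd (Poly.comp poly_unpair (Poly.snd poly_unpair))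

theorem poly_Q : Poly Q := by
  unfold Q
  exact Poly.cons (H622R2.poly_pairBits poly_px
    (Poly.append (R12.poly_take poly_pr (upoly_kr.comp poly_px)) poly_py))
    (Poly.comp poly_mks poly_px)

theorem poly_H : Poly H := by
  unfold H
  refine Poly.ite (Poly.decide_and ?_ ?_) (NPC.Poly.const _) (NPC.Poly.const _)
  · exact Poly.decide_eq (Poly.length (Poly.comp poly_py (Poly.fst Poly.id)))
      ((upoly_kw.comp (Poly.comp poly_px (Poly.fst Poly.id))).toPoly)
  · exact Poly.decide_bool (Poly.all (p := fun _ b => b) (Poly.snd Poly.id) (Poly.snd Poly.id))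

theorem V_iff (A : Oracle) (r y x : List Bool) :
    V A (pairBits r (pairBits y x)) = [true] ↔
      (y.length = kw x ∧ A (pairBits x (r.take (kr x) ++ y)) = true) ∧ Marked A x := by
  have e1 : pr (pairBits r (pairBits y x)) = r := by
    unfold pr; rw [unpair_pairBits]
  have e2 : py (pairBits r (pairBits y x)) = y := by
    unfold py; rw [unpair_pairBits]; simp only [unpair_pairBits]
  have e3 : px (pairBits r (pairBits y x)) = x := by
    unfold px; rw [unpair_pairBits]; simp only [unpair_pairBits]
  have e4 : (((Q (pairBits r (pairBits y x))).map A).all (fun b => b) = true) ↔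
      (A (pairBits x (r.take (kr x) ++ y)) = true ∧ Marked A x) := by
    unfold Q
    rw [e1, e2, e3, mks_eq, List.map_cons, List.all_cons, Bool.and_eq_true, List.map_map,
      List.all_map]
    refine and_congr Iff.rfl ?_
    rw [List.all_eq_true]
    constructor
    · intro h i hi
      exact h i (List.mem_range.2 hi)
    · intro h i hi
      exact h i (List.mem_range.1 hi)
  unfold V H
  rw [e2, e3]
  by_cases h : y.length = kw x ∧
      (((Q (pairBits r (pairBits y x))).map A).all (fun b => b) = true)
  · rw [if_pos h]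
    simp only [true_iff]
    exact ⟨⟨h.1, (e4.1 h.2).1⟩, (e4.1 h.2).2⟩
  · rw [if_neg h]
    constructor
    · intro h'
      exact absurd h' (by simp)
    · rintro ⟨⟨h1, h2⟩, h3⟩
      exact absurd ⟨h1, e4.2 ⟨h2, h3⟩⟩ h

theorem count_le (P : List Bool → Prop) (K d : ℕ) :
    Nat.card {w : Fin (K + d) → Bool // P ((List.ofFn w).take K)} ≤
      Nat.card {w : Fin K → Bool // P (List.ofFn w)} * 2 ^ d := by
  have h1 : Nat.card ({w : Fin K → Bool // P (List.ofFn w)} × (Fin d → Bool)) =
      Nat.card {w : Fin K → Bool // P (List.ofFn w)} * 2 ^ d := by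
    rw [Nat.card_prod]
    congr 1
    rw [Nat.card_eq_fintype_card, Fintype.card_fun, Fintype.card_bool, Fintype.card_fin]
  rw [← h1]
  have h2 : ∀ w : Fin (K + d) → Bool, (List.ofFn w).take K =
      List.ofFn (fun i => w (Fin.castAdd d i)) := by
    intro w
    have h3 : w = Fin.append (fun i => w (Fin.castAdd d i)) (fun i => w (Fin.natAdd K i)) :=
      (Fin.append_castAdd_natAdd).symm
    conv_lhs => rw [h3]
    rw [List.ofFn_fin_append, List.take_left' (List.length_ofFn)]
  let f : {w : Fin (K + d) → Bool // P ((List.ofFn w).take K)} →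
      ({w : Fin K → Bool // P (List.ofFn w)} × (Fin d → Bool)) := fun w =>
    (⟨fun i => w.1 (Fin.castAdd d i), by rw [← h2]; exact w.2⟩, fun i => w.1 (Fin.natAdd K i))
  apply Nat.card_le_card_of_injective f
  intro p q h
  have e1 : (fun i => p.1 (Fin.castAdd d i)) = fun i => q.1 (Fin.castAdd d i) :=
    congrArg (fun z => z.1.1) h
  have e2 : (fun i => p.1 (Fin.natAdd K i)) = fun i => q.1 (Fin.natAdd K i) :=
    congrArg (fun z => z.2) h
  apply Subtype.ext
  rw [← Fin.append_castAdd_natAdd (f := p.1), ← Fin.append_castAdd_natAdd (f := q.1), e1, e2]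

/-- the polynomial -/
noncomputable def pm : Polynomial ℕ := R12.pp + 1

theorem kk_lt (x : List Bool) : kk x + 1 ≤ pm.eval x.length := by
  have := R12.kk_le x
  unfold pm
  rw [Polynomial.eval_add, Polynomial.eval_one]
  omega

theorem ex_iff (A : Oracle) (x : List Bool) (hx : Marked A x) (r : List Bool) :
    (∃ y : List Bool, y.length ≤ pm.eval x.length ∧ V A (pairBits r (pairBits y x)) = [true]) ↔
      RowGood A x (r.take (kr x)) := by
  constructor
  · rintro ⟨y, _, hy⟩
    have := (V_iff A r y x).1 hy
    exact ⟨y, this.1.1, this.1.2⟩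
  · rintro ⟨y, hy1, hy2⟩
    refine ⟨y, ?_, (V_iff A r y x).2 ⟨⟨hy1, hy2⟩, hx⟩⟩
    rw [hy1]
    exact (kw_le x).trans (kk_lt x)

end M8

open M8 in
theorem t_ammem : St_ammem := by
  intro A hA
  refine ⟨V A, pm, IsFP.tt poly_Q poly_H, fun x => ⟨fun hx => ?_, fun hx => ?_⟩⟩
  · have h1 : Nat.card {r : Fin (pm.eval x.length) → Bool // ∃ y : List Bool,
        y.length ≤ pm.eval x.length ∧ V A (pairBits (List.ofFn r) (pairBits y x)) = [true]} =
        2 ^ (pm.eval x.length) := by
      rw [Nat.card_congr (Equiv.subtypeUnivEquiv fun r => ?_), Nat.card_eq_fintype_card,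
        Fintype.card_fun, Fintype.card_bool, Fintype.card_fin]
      refine (ex_iff A x hx.1 _).2 (hx.2 _ ?_)
      rw [List.length_take, List.length_ofFn, min_eq_left]
      exact (kr_le x).trans (kk_lt x)
    unfold exPr
    rw [h1]
    push_cast
    rw [div_self (by positivity)]
    norm_num
  · unfold exPr
    by_cases hm : Marked A x
    · have h2 : 3 * Nat.card {r : Fin (kr x) → Bool // RowGood A x (List.ofFn r)} ≤
          2 ^ kr x := by
        rcases hA x hm with h | h
        · exact absurd ⟨hm, h⟩ hx
        · exact h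
      obtain ⟨d, hd⟩ := Nat.exists_eq_add_of_le ((kr_le x).trans (kk_lt x))
      have h3 : Nat.card {r : Fin (pm.eval x.length) → Bool // ∃ y : List Bool,
          y.length ≤ pm.eval x.length ∧
            V A (pairBits (List.ofFn r) (pairBits y x)) = [true]} =
          Nat.card {r : Fin (pm.eval x.length) → Bool //
            RowGood A x ((List.ofFn r).take (kr x))} :=
        Nat.card_congr (Equiv.subtypeEquivRight fun r => ex_iff A x hm (List.ofFn r))
      rw [h3, hd, div_le_div_iff₀ (by positivity) (by norm_num)]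
      have h4 := count_le (fun r => RowGood A x r) (kr x) d
      have h5 : 3 * Nat.card {r : Fin (kr x + d) → Bool //
          RowGood A x ((List.ofFn r).take (kr x))} ≤ 2 ^ (kr x + d) := by
        calc 3 * Nat.card {r : Fin (kr x + d) → Bool //
              RowGood A x ((List.ofFn r).take (kr x))}
            ≤ 3 * (Nat.card {r : Fin (kr x) → Bool // RowGood A x (List.ofFn r)} * 2 ^ d) :=
              Nat.mul_le_mul_left _ h4
          _ = (3 * Nat.card {r : Fin (kr x) → Bool // RowGood A x (List.ofFn r)}) * 2 ^ d := by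
              ring
          _ ≤ 2 ^ kr x * 2 ^ d := Nat.mul_le_mul_right _ h2
          _ = 2 ^ (kr x + d) := (pow_add _ _ _).symm
      have h6 : 3 * (Nat.card {r : Fin (kr x + d) → Bool //
          RowGood A x ((List.ofFn r).take (kr x))} : ℝ) ≤ (2 : ℝ) ^ (kr x + d) := by
        exact_mod_cast h5
      linarith
    · have h1 : IsEmpty {r : Fin (pm.eval x.length) → Bool // ∃ y : List Bool,
          y.length ≤ pm.eval x.length ∧
            V A (pairBits (List.ofFn r) (pairBits y x)) = [true]} := by
        constructor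
        rintro ⟨r, y, _, hy⟩
        exact hm ((V_iff A _ y x).1 hy).2
      rw [Nat.card_of_isEmpty]
      simp

end Pool.Agent.H752.GM
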